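import Pool.Agent.Lib.MP_688fd0_co.OSF.Iface

/-! Board `os_modules`, module W2: two crossing bands. -/

set_option autoImplicit false

namespace Pool.Agent.Lib.MP_688fd0_co.OSF.H35

open Pool.Agent.Lib.MP_688fd0_co.OSF

universe u v

section paths

variable {Q : Type u} [Group Q] {B : Lb.{u, v} Q}

theorem fin_append (x : Q) (l l' : List B.L) : B.fin x (l ++ l') = B.fin (B.fin x l) l' := by
  induction l generalizing x with
  | nil => rfl
  | cons g l ih => exact ih _

theorem fin_replicate (x : Q) (g : B.L) (n : ℕ) :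
    B.fin x (List.replicate n g) = x * B.q g ^ n := by
  induction n generalizing x with
  | zero => simp [Lb.fin]
  | succ n ih =>
    rw [List.replicate_succ]
    show B.fin (x * B.q g) (List.replicate n g) = _
    rw [ih, pow_succ', mul_assoc]

theorem verts_append_single (x : Q) (l : List B.L) (g : B.L) :
    B.verts x (l ++ [g]) = B.verts x l ++ [B.fin x l * B.q g] := by
  induction l generalizing x with
  | nil => rfl
  | cons h l ih =>
    show x :: B.verts (x * B.q h) (l ++ [g]) = x :: B.verts (x * B.q h) l ++ _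
    rw [ih]; rfl

theorem verts_replicate (x : Q) (g : B.L) (n : ℕ) :
    B.verts x (List.replicate n g) = (List.range (n + 1)).map (fun k => x * B.q g ^ k) := by
  induction n generalizing x with
  | zero => simp [Lb.verts]
  | succ n ih =>
    rw [List.replicate_succ]
    show x :: B.verts (x * B.q g) (List.replicate n g) = _
    rw [ih, List.range_succ_eq_map (n := n + 1), List.map_cons, List.map_map]
    congr 1
    · simp
    · apply List.map_congr_left
      intro k _
      show x * B.q g * B.q g ^ k = x * B.q g ^ (k + 1)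
      rw [pow_succ', mul_assoc]

theorem isChain_replicate (a : B.L) (x : Q) (n : ℕ) :
    List.IsChain (Edg a []) (B.verts x (List.replicate n a)) := by
  induction n generalizing x with
  | zero => exact List.isChain_singleton _
  | succ n ih =>
    rw [List.replicate_succ]
    show List.IsChain (Edg a []) (x :: B.verts (x * B.q a) (List.replicate n a))
    have h := ih (x * B.q a)
    cases n with
    | zero =>
      refine List.IsChain.cons_cons ?_ (List.isChain_singleton _)
      left
      exact ⟨rfl, fun ⟨b, hb, _⟩ => by simp at hb⟩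
    | succ n =>
      rw [List.replicate_succ] at h ⊢
      refine List.IsChain.cons_cons ?_ h
      left
      exact ⟨rfl, fun ⟨b, hb, _⟩ => by simp at hb⟩

end paths

section vol

variable {Q : Type u} [Group Q] {B : Lb.{u, v} Q} {R : Type*} [CommRing R] (V : Vd B R)

theorem vol_append (x : Q) (l l' : List B.L) :
    V.vol x (l ++ l') = V.vol x l + V.vol (B.fin x l) l' := by
  induction l generalizing x with
  | nil => simp [Vd.vol, Lb.fin]
  | cons g l ih =>
    show V.chi x * V.n g + V.vol (x * B.q g) (l ++ l') = _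
    rw [ih]
    show _ = V.chi x * V.n g + V.vol (x * B.q g) l + V.vol (B.fin (x * B.q g) l) l'
    ring

/-- `(α - 1) vol x (a ^ n) = χ(x) n_a (α ^ n - 1)`. -/
theorem vol_replicate (x : Q) (g : B.L) (n : ℕ) :
    (V.chi (B.q g) - 1) * V.vol x (List.replicate n g) =
      V.chi x * V.n g * (V.chi (B.q g) ^ n - 1) := by
  induction n generalizing x with
  | zero => simp [Vd.vol]
  | succ n ih =>
    rw [List.replicate_succ]
    show (V.chi (B.q g) - 1) * (V.chi x * V.n g + V.vol (x * B.q g) (List.replicate n g)) = _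
    rw [mul_add, ih, map_mul]
    ring

/-- `(α - 1) vol x (a⁻¹ ^ n) = χ(x) n_a (α ^ (-n) - 1)`. -/
theorem vol_replicate_inv (x : Q) (a : B.L) (n : ℕ) :
    (V.chi (B.q a) - 1) * V.vol x (List.replicate n (B.inv a)) =
      V.chi x * V.n a * (V.chi (B.q a)⁻¹ ^ n - 1) := by
  have hag : V.chi (B.q a) * V.chi (B.q a)⁻¹ = 1 := by
    rw [← map_mul, mul_inv_cancel, map_one]
  induction n generalizing x with
  | zero => simp [Vd.vol]
  | succ n ih =>
    rw [List.replicate_succ]
    show (V.chi (B.q a) - 1) * (V.chi x * V.n (B.inv a) +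
      V.vol (x * B.q (B.inv a)) (List.replicate n (B.inv a))) = _
    rw [mul_add, ih, map_mul, B.q_inv, V.n_inv]
    linear_combination (-(V.chi x * V.n a)) * hag

end vol

theorem w2 : W2S.{u, v} := by
  intro Q _ B p V a s d hy hS hd3 hd20 hsq hk
  have _ : Fact p.Prime := ⟨hy.prime⟩
  have _ : Finite Q := hy.fin
  have hcA : ∀ x : Q, Commute x (B.q a) := fun x => hy.cen x
  -- values of `χ` have odd order
  have hodd : ∀ x : Q, V.chi x ^ Nat.card Q = 1 := by
    intro x
    rw [← map_pow, pow_card_eq_one', map_one]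
  have hneg : ∀ x : Q, 1 + V.chi x ≠ 0 := by
    intro x h
    have h1 : V.chi x = -1 := by linear_combination h
    have h2 := hodd x
    rw [h1, hy.odd.neg_one_pow] at h2
    have h3 : (2 : ZMod p) = 0 := by linear_combination -h2
    have h4 : ((2 : ℕ) : ZMod p) = 0 := by exact_mod_cast h3
    rw [ZMod.natCast_eq_zero_iff] at h4
    exact hy.ne_two ((Nat.prime_dvd_prime_iff_eq hy.prime Nat.prime_two).1 h4)
  have hone : ∀ x : Q, V.chi x ^ 2 = 1 → V.chi x = 1 := by
    intro x h
    have h1 : (V.chi x - 1) * (1 + V.chi x) = 0 := by linear_combination h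
    rcases mul_eq_zero.1 h1 with h2 | h2
    · linear_combination h2
    · exact absurd h2 (hneg x)
  have hag : V.chi (B.q a) * V.chi (B.q a)⁻¹ = 1 := by
    rw [← map_mul, mul_inv_cancel, map_one]
  have hbb : V.chi (B.q s) ^ 2 = V.chi (B.q a) ^ d := by
    rw [← map_pow, hsq, map_pow]
  have ha1 : V.chi (B.q a) ≠ 1 := by
    intro h
    rw [h, one_pow] at hbb
    have h1 := hone _ hbb
    apply hk
    unfold Vd.kap
    rw [h, h1]; ring
  -- the choice of `j`
  obtain ⟨j, hj, hj1⟩ : ∃ j : ℕ, j ≤ 1 ∧ V.chi (B.q s) * V.chi (B.q a)⁻¹ ^ (j + 1) ≠ 1 := by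
    by_contra hcon
    push Not at hcon
    have h0 := hcon 0 (by norm_num)
    have h1 := hcon 1 (by norm_num)
    have h2 : V.chi (B.q a)⁻¹ = 1 := by
      have : V.chi (B.q a)⁻¹ * (V.chi (B.q s) * V.chi (B.q a)⁻¹ ^ (0 + 1)) = 1 := by
        rw [← h1]; ring
      rwa [h0, mul_one] at this
    rw [h2, mul_one] at hag
    exact ha1 hag
  obtain ⟨e, rfl⟩ : ∃ e : ℕ, d = j + 2 + e := ⟨d - (j + 2), by omega⟩
  set A : Q := B.q a with hA
  set S : Q := B.q s with hSd
  set X : Q := S * (A ^ (j + 1))⁻¹ with hX
  -- the strands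
  let s1 : Strand B := ⟨1, List.replicate (e + 2) a, s :: (List.replicate j (B.inv a) ++ [s])⟩
  let s2 : Strand B := ⟨X, List.replicate (j + 2) a, s :: (List.replicate e (B.inv a) ++ [s])⟩
  -- group identities
  have hSS : S * S = A ^ (j + 2 + e) := by rw [← hsq, sq]
  have hXS : X * S = A ^ (e + 1) := by
    rw [hX, mul_assoc, ← (((hcA S).pow_right (j + 1)).inv_right).eq, ← mul_assoc, hSS,
      mul_inv_eq_iff_eq_mul, ← pow_add]
    congr 1; omega
  have hjS : A⁻¹ ^ j * S = S * A⁻¹ ^ j := (((hcA S).inv_right.pow_right j).eq).symm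
  have hXA : ∀ k : ℕ, k ≤ j + 1 → X * A ^ k = S * (A ^ (j + 1 - k))⁻¹ := by
    intro k hk
    rw [hX, mul_assoc]
    congr 1
    rw [inv_mul_eq_iff_eq_mul, eq_mul_inv_iff_mul_eq, ← pow_add]
    congr 1; omega
  have hXA2 : X * A ^ (j + 2) = S * A := by
    rw [pow_succ, ← mul_assoc, hXA (j + 1) le_rfl]; simp
  have hvb1 : s1.vb = (List.range (e + 3)).map (fun k => 1 * A ^ k) := verts_replicate _ _ _
  have hvb2 : s2.vb = (List.range (j + 3)).map (fun k => X * A ^ k) := verts_replicate _ _ _
  have hva1 : s1.va = 1 :: ((List.range (j + 1)).map (fun k => 1 * S * (A⁻¹) ^ k) ++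
      [1 * S * (A⁻¹) ^ j * S]) := by
    show (1 : Q) :: B.verts (1 * B.q s) (List.replicate j (B.inv a) ++ [s]) = _
    rw [verts_append_single, verts_replicate, fin_replicate, B.q_inv]
  have hva2 : s2.va = X :: ((List.range (e + 1)).map (fun k => X * S * (A⁻¹) ^ k) ++
      [X * S * (A⁻¹) ^ e * S]) := by
    show X :: B.verts (X * B.q s) (List.replicate e (B.inv a) ++ [s]) = _
    rw [verts_append_single, verts_replicate, fin_replicate, B.q_inv]
  -- injectivity
  have hinj : ∀ k l : ℕ, k ≤ 30 → l ≤ 30 → A ^ k = A ^ l → k = l := by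
    intro k l hk hl h
    have hbig : 1000 ≤ orderOf A := hy.big
    exact pow_injOn_Iio_orderOf (show k ∈ Set.Iio (orderOf A) by
      show k < orderOf A; omega) (show l ∈ Set.Iio (orderOf A) by show l < orderOf A; omega) h
  have hrow : ∀ k l : ℕ, k ≤ 30 → l ≤ 30 → A ^ k ≠ X * A ^ l := by
    intro k l hk hl h
    apply hS
    refine ⟨(k : ℤ) + (j + 1) - l, ?_, ?_⟩
    · rw [abs_le]; constructor <;> push_cast <;> omega
    · have h1 : S = A ^ k * A ^ (j + 1) * (A ^ l)⁻¹ := by
        rw [h, hX]; group
      show S = A ^ ((k : ℤ) + (j + 1) - l)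
      rw [h1, zpow_sub, zpow_add, zpow_natCast, zpow_natCast, ← Nat.cast_succ, zpow_natCast]
  have hnodup : ([s1, s2].flatMap Strand.vb).Nodup := by
    show (s1.vb ++ (s2.vb ++ [])).Nodup
    rw [List.append_nil, hvb1, hvb2]
    rw [List.nodup_append']
    refine ⟨?_, ?_, ?_⟩
    · apply List.Nodup.map_on _ List.nodup_range
      intro x hx y hy' h
      rw [List.mem_range] at hx hy'
      simp only [one_mul] at h
      exact hinj _ _ (by omega) (by omega) h
    · apply List.Nodup.map_on _ List.nodup_range
      intro x hx y hy' h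
      rw [List.mem_range] at hx hy'
      exact hinj _ _ (by omega) (by omega) (mul_left_cancel h)
    · intro y h1 h2
      rw [List.mem_map] at h1 h2
      obtain ⟨k, hk, rfl⟩ := h1
      obtain ⟨l, hl, h⟩ := h2
      rw [List.mem_range] at hk hl
      simp only [one_mul] at h
      exact hrow k l (by omega) (by omega) h.symm
  have hperm : ([s1, s2].flatMap Strand.va).Perm ([s1, s2].flatMap Strand.vb) := by
    symm
    apply List.Subperm.perm_of_length_le
    · apply List.Nodup.subperm hnodup
      intro y hy'
      have hy1 : y ∈ s1.vb ++ (s2.vb ++ []) := hy'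
      show y ∈ s1.va ++ (s2.va ++ [])
      rw [List.append_nil, List.mem_append] at hy1 ⊢
      rw [hva1, hva2]
      rw [hvb1, hvb2] at hy1
      rcases hy1 with h | h
      · rw [List.mem_map] at h
        obtain ⟨k, hk, rfl⟩ := h
        rw [List.mem_range] at hk
        rcases Nat.eq_zero_or_pos k with h0 | h0
        · left; subst h0; simp
        · rcases Nat.lt_or_ge k (e + 2) with h1 | h1
          · right
            apply List.mem_cons_of_mem
            rw [List.mem_append]; left
            rw [List.mem_map]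
            refine ⟨e + 1 - k, List.mem_range.2 (by omega), ?_⟩
            show X * S * A⁻¹ ^ (e + 1 - k) = 1 * A ^ k
            rw [hXS, one_mul, inv_pow, mul_inv_eq_iff_eq_mul, ← pow_add]
            congr 1; omega
          · left
            apply List.mem_cons_of_mem
            rw [List.mem_append]; right
            rw [List.mem_singleton]
            have hk2 : k = e + 2 := by omega
            subst hk2
            show 1 * A ^ (e + 2) = 1 * S * A⁻¹ ^ j * S
            rw [one_mul, one_mul, mul_assoc, hjS, ← mul_assoc, hSS, inv_pow, eq_mul_inv_iff_mul_eq,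
              ← pow_add]
            congr 1; omega
      · rw [List.mem_map] at h
        obtain ⟨k, hk, rfl⟩ := h
        rw [List.mem_range] at hk
        rcases Nat.eq_zero_or_pos k with h0 | h0
        · right; subst h0; simp
        · rcases Nat.lt_or_ge k (j + 2) with h1 | h1
          · left
            apply List.mem_cons_of_mem
            rw [List.mem_append]; left
            rw [List.mem_map]
            refine ⟨j + 1 - k, List.mem_range.2 (by omega), ?_⟩
            show 1 * S * A⁻¹ ^ (j + 1 - k) = X * A ^ k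
            rw [hXA k (by omega), one_mul, inv_pow]
          · right
            apply List.mem_cons_of_mem
            rw [List.mem_append]; right
            rw [List.mem_singleton]
            have hk2 : k = j + 2 := by omega
            subst hk2
            show X * A ^ (j + 2) = X * S * A⁻¹ ^ e * S
            rw [hXA2, hXS, inv_pow, pow_succ']
            rw [mul_assoc A, mul_inv_cancel, mul_one]
            exact hy.cen S
    · show (s1.va ++ (s2.va ++ [])).length ≤ (s1.vb ++ (s2.vb ++ [])).length
      rw [hva1, hva2, hvb1, hvb2]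
      simp only [List.length_append, List.length_cons, List.length_map, List.length_range,
        List.length_nil]
      omega
  have hfin1 : B.fin s1.x s1.l = B.fin s1.x s1.l' := by
    show B.fin 1 (List.replicate (e + 2) a) = B.fin (1 * B.q s) (List.replicate j (B.inv a) ++ [s])
    rw [fin_append, fin_replicate, fin_replicate]
    show 1 * A ^ (e + 2) = 1 * S * B.q (B.inv a) ^ j * S
    rw [B.q_inv]
    show 1 * A ^ (e + 2) = 1 * S * A⁻¹ ^ j * S
    rw [one_mul, one_mul, mul_assoc, hjS, ← mul_assoc, hSS, inv_pow, eq_mul_inv_iff_mul_eq, ← pow_add]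
    congr 1; omega
  have hfin2 : B.fin s2.x s2.l = B.fin s2.x s2.l' := by
    show B.fin X (List.replicate (j + 2) a) = B.fin (X * B.q s) (List.replicate e (B.inv a) ++ [s])
    rw [fin_append, fin_replicate, fin_replicate]
    show X * A ^ (j + 2) = X * S * B.q (B.inv a) ^ e * S
    rw [B.q_inv, hXA2, hXS, inv_pow, pow_succ']
    rw [mul_assoc A, mul_inv_cancel, mul_one]
    exact hy.cen S
  -- the changes
  have hg1 : V.chi A * V.chi A⁻¹ = 1 := hag
  have hgp : ∀ n : ℕ, V.chi A ^ n * V.chi A⁻¹ ^ n = 1 := by
    intro n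
    rw [← mul_pow, hg1, one_pow]
  have hfinj : B.fin (1 * S) (List.replicate j (B.inv a)) = S * (A⁻¹) ^ j := by
    rw [fin_replicate, B.q_inv, one_mul]
  have hfine : B.fin (X * S) (List.replicate e (B.inv a)) = A := by
    rw [fin_replicate, B.q_inv, hXS, inv_pow, pow_succ', mul_assoc, mul_inv_cancel, mul_one]
  have hD1 : (V.chi A - 1) * (V.vol s1.x s1.l' - V.vol s1.x s1.l) =
      V.kap a s * (1 + V.chi S * V.chi A⁻¹ ^ j) := by
    have e1 : V.vol s1.x s1.l' = V.n s + (V.vol (1 * S) (List.replicate j (B.inv a)) +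
        V.chi (S * (A⁻¹) ^ j) * V.n s) := by
      show V.chi 1 * V.n s + V.vol (1 * S) (List.replicate j (B.inv a) ++ [s]) = _
      rw [vol_append, hfinj, map_one, one_mul]
      show _ = _
      simp [Vd.vol]
    have e2 := vol_replicate_inv V (1 * S) a j
    have e3 := vol_replicate V (1 : Q) a (e + 2)
    have e4 : V.vol s1.x s1.l = V.vol 1 (List.replicate (e + 2) a) := rfl
    rw [e1, e4, map_mul, map_pow]
    rw [one_mul] at e2 ⊢
    rw [map_one, one_mul] at e3
    rw [← hA] at e2 e3
    have h5 := hgp j
    unfold Vd.kap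
    rw [← hA, ← hSd]
    have hb2 : V.chi S ^ 2 = V.chi A ^ (j + 2 + e) := hbb
    have h6 : V.chi S ^ 2 * V.chi A⁻¹ ^ j = V.chi A ^ (e + 2) := by
      rw [hb2]
      calc V.chi A ^ (j + 2 + e) * V.chi A⁻¹ ^ j = V.chi A ^ (e + 2) * (V.chi A ^ j * V.chi A⁻¹ ^ j) := by
            ring
        _ = V.chi A ^ (e + 2) := by rw [h5, mul_one]
    linear_combination e2 - e3 + V.n a * h6
  have hD2 : (V.chi A - 1) * (V.vol s2.x s2.l' - V.vol s2.x s2.l) =
      V.kap a s * (V.chi A + V.chi S * V.chi A⁻¹ ^ (j + 1)) := by
    have hXc : V.chi X = V.chi S * V.chi A⁻¹ ^ (j + 1) := by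
      rw [hX, map_mul, ← inv_pow, map_pow]
    have e1 : V.vol s2.x s2.l' = V.chi X * V.n s + (V.vol (X * S) (List.replicate e (B.inv a)) +
        V.chi A * V.n s) := by
      show V.chi X * V.n s + V.vol (X * S) (List.replicate e (B.inv a) ++ [s]) = _
      rw [vol_append, hfine]
      simp [Vd.vol]
    have e2 := vol_replicate_inv V (X * S) a e
    have e3 := vol_replicate V X a (j + 2)
    have e4 : V.vol s2.x s2.l = V.vol X (List.replicate (j + 2) a) := rfl
    rw [e1, e4]
    rw [← hA, hXS, map_pow] at e2
    rw [← hA] at e3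
    rw [hXS]
    have h5 := hgp (j + 1)
    have h7 := hgp e
    unfold Vd.kap
    rw [← hA, ← hSd]
    have hb2 : V.chi S ^ 2 = V.chi A ^ (j + 2 + e) := hbb
    have h6 : V.chi S ^ 2 * V.chi A⁻¹ ^ (j + 1) = V.chi A ^ (e + 1) := by
      rw [hb2]
      calc V.chi A ^ (j + 2 + e) * V.chi A⁻¹ ^ (j + 1) =
          V.chi A ^ (e + 1) * (V.chi A ^ (j + 1) * V.chi A⁻¹ ^ (j + 1)) := by ring
        _ = V.chi A ^ (e + 1) := by rw [h5, mul_one]
    rw [hXc] at e3 ⊢
    linear_combination e2 - e3 + V.n a * h6 + V.n a * V.chi A * h7 - V.n a * V.chi S * V.chi A * h5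
  -- the final inequality
  have hsum : (V.vol s1.x s1.l' - V.vol s1.x s1.l) + (V.vol s2.x s2.l' - V.vol s2.x s2.l) ≠ 0 := by
    intro h
    have h1 : V.kap a s * ((1 + V.chi A) * (1 + V.chi (S * A⁻¹ ^ (j + 1)))) = 0 := by
      rw [map_mul, map_pow]
      have h2 : (V.chi A - 1) * ((V.vol s1.x s1.l' - V.vol s1.x s1.l) +
        (V.vol s2.x s2.l' - V.vol s2.x s2.l)) = 0 := by rw [h, mul_zero]
      rw [mul_add, hD1, hD2] at h2
      linear_combination h2 + V.kap a s * V.chi S * V.chi A⁻¹ ^ j * hg1
    rcases mul_eq_zero.1 h1 with h2 | h2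
    · exact hk h2
    · rcases mul_eq_zero.1 h2 with h3 | h3
      · exact hneg _ h3
      · exact hneg _ h3
  have hdif : (V.vol s1.x s1.l' - V.vol s1.x s1.l) - (V.vol s2.x s2.l' - V.vol s2.x s2.l) ≠ 0 := by
    intro h
    have h1 : V.kap a s * ((1 - V.chi A) * (1 - V.chi S * V.chi A⁻¹ ^ (j + 1))) = 0 := by
      have h2 : (V.chi A - 1) * ((V.vol s1.x s1.l' - V.vol s1.x s1.l) -
        (V.vol s2.x s2.l' - V.vol s2.x s2.l)) = 0 := by rw [h, mul_zero]
      rw [mul_sub, hD1, hD2] at h2
      linear_combination h2 + V.kap a s * V.chi S * V.chi A⁻¹ ^ j * hg1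
    rcases mul_eq_zero.1 h1 with h2 | h2
    · exact hk h2
    · rcases mul_eq_zero.1 h2 with h3 | h3
      · exact ha1 (by linear_combination -h3)
      · exact hj1 (by linear_combination -h3)
  classical
  refine ⟨⟨[], [], [s1, s2], (s1.vb ++ s2.vb).toFinset⟩, ?_, ?_, ?_, ?_⟩
  · refine ⟨?_, ?_, ?_, ?_, ?_, ?_, ?_⟩
    · simp
    · intro b hb; simp at hb
    · intro t ht x hx
      show x ∈ (s1.vb ++ s2.vb).toFinset
      rw [List.mem_toFinset, List.mem_append]
      have ht' : t ∈ [s1, s2] := ht
      rw [List.mem_cons, List.mem_singleton] at ht'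
      rcases ht' with rfl | rfl
      · exact Or.inl hx
      · exact Or.inr hx
    · refine ⟨?_, ?_, hnodup, hperm⟩
      · intro t ht
        have ht' : t ∈ [s1, s2] := ht
        rw [List.mem_cons, List.mem_singleton] at ht'
        rcases ht' with rfl | rfl
        · show List.replicate (e + 2) a ≠ []
          simp
        · show List.replicate (j + 2) a ≠ []
          simp
      · intro t ht
        have ht' : t ∈ [s1, s2] := ht
        rw [List.mem_cons, List.mem_singleton] at ht'
        rcases ht' with rfl | rfl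
        · exact hfin1
        · exact hfin2
    · intro t ht
      have ht' : t ∈ [s1, s2] := ht
      rw [List.mem_cons, List.mem_singleton] at ht'
      rcases ht' with rfl | rfl
      · exact isChain_replicate a _ _
      · exact isChain_replicate a _ _
    · intro t _ x _ b hb; simp at hb
    · intro r _ _ _ _ b hb; simp at hb
  · show (s1.vb ++ s2.vb).toFinset.card ≤ 200
    refine (List.toFinset_card_le _).trans ?_
    rw [hvb1, hvb2]
    simp only [List.length_append, List.length_map, List.length_range]
    omega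
  · show [s1, s2].length ≤ 2
    simp
  · intro l hl
    have hl' : l.map Prod.fst = [s1, s2] := hl
    match l, hl' with
    | [], h => simp at h
    | [_], h => simp at h
    | _ :: _ :: _ :: _, h => simp at h
    | [(t1, b1), (t2, b2)], h =>
      simp only [List.map_cons, List.map_nil, List.cons.injEq, and_true] at h
      obtain ⟨rfl, rfl⟩ := h
      unfold Vd.dlt
      simp only [List.map_cons, List.map_nil, List.sum_cons, List.sum_nil, add_zero]
      cases b1 <;> cases b2
      · intro h; apply hsum
        simp only [Bool.false_eq_true, if_false] at h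
        linear_combination -h
      · intro h; apply hdif
        simp only [Bool.false_eq_true, if_false, if_true] at h
        linear_combination -h
      · intro h; apply hdif
        simp only [Bool.false_eq_true, if_false, if_true] at h
        linear_combination h
      · intro h; apply hsum
        simp only [if_true] at h
        linear_combination h

end Pool.Agent.Lib.MP_688fd0_co.OSF.H35
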